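import Pool.Graph.R_pool_sql_team_seeded_47a924f7.T6.H20.BV.Main
import Pool.Graph.R_pool_sql_team_seeded_47a924f7.T6.H20.BV.T3d
import Pool.Graph.R_pool_sql_team_seeded_47a924f7.T6.H20.BU.Res

/-!
# Non-conformal free-boundary `n`-harmonic bubbles into all spheres of large dimension

The library (`MP_138ac9_an.NonConformalBubbles`) has, for every `n ≥ 3`, some `d` and a non-conformal
bubble `ℝⁿ₊ → ℝᵈ`.  Here the target dimension is controlled: for `n = 3` every `d ≥ 3`, and for
`n ≥ 4` every `d ≥ n²`.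
-/

set_option autoImplicit false

namespace Pool.Agent.Results.MP_138ac9_an.AllLargeTargets

open MeasureTheory Pool.Agent.T6.H20.BU

/-! ## Appending a zero component -/

/-- the family `f` with the additional last member `0` -/
def pad {α : Type} [Zero α] {d : ℕ} (f : Fin d → α) : Fin (d + 1) → α :=
  Fin.snoc (α := fun _ => α) f 0

theorem pad_castSucc {α : Type} [Zero α] {d : ℕ} (f : Fin d → α) (c : Fin d) :
    pad f c.castSucc = f c := Fin.snoc_castSucc (α := fun _ => α) 0 f c

theorem pad_last {α : Type} [Zero α] {d : ℕ} (f : Fin d → α) :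
    pad f (Fin.last d) = 0 := Fin.snoc_last (α := fun _ => α) 0 f

theorem hs_pad {n d : ℕ} (A : Fin d → E n) : hs (pad A) = hs A := by
  unfold hs
  rw [Fin.sum_univ_castSucc]
  simp only [pad_castSucc, pad_last, norm_zero]
  norm_num

theorem pair_pad {m n d : ℕ} (A : Fin d → E n) (B : Fin (d + 1) → E n) :
    pair m (pad A) B = pair m A (fun c => B c.castSucc) := by
  unfold pair
  rw [hs_pad, Fin.sum_univ_castSucc]
  simp only [pad_castSucc, pad_last, inner_zero_left, add_zero]

theorem isBubble_pad {m d : ℕ} {ω : E (m + 1) → Fin d → ℝ} {A : E (m + 1) → Fin d → E (m + 1)}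
    {τ : E m → Fin d → ℝ} (h : IsBubble m d ω A τ) :
    IsBubble m (d + 1) (fun x => pad (ω x)) (fun x => pad (A x)) (fun y => pad (τ y)) := by
  refine ⟨?_, ?_, ?_, ?_, ?_⟩
  · intro c
    refine Fin.lastCases ?_ (fun c => ?_) c
    · simp only [pad_last]
      refine ⟨fun R => ?_, fun R => ?_, ?_, ?_⟩
      · exact integrableOn_zero
      · exact integrableOn_zero
      · exact (continuous_const : Continuous fun _ : E m => (0 : ℝ)).locallyIntegrable
      · intro φ _ _ j
        simp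
    · simp only [pad_castSucc]
      exact h.diff c
  · intro c R
    refine Fin.lastCases ?_ (fun c => ?_) c
    · simp only [pad_last]
      exact MemLp.zero'
    · simp only [pad_castSucc]
      exact h.loc c R
  · simp only [hs_pad]
    exact h.energy
  · filter_upwards [h.unit] with y hy
    rw [Fin.sum_univ_castSucc]
    simp only [pad_castSucc, pad_last]
    rw [hy]
    norm_num
  · intro Φ B σ ht
    have ht' : IsTest m d τ (fun x c => Φ x c.castSucc) (fun x c => B x c.castSucc)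
        (fun y c => σ y c.castSucc) := by
      refine ⟨fun c => ht.diff c.castSucc, fun c => ht.val c.castSucc,
        fun c => ht.grad c.castSucc, ?_, ?_⟩
      · obtain ⟨R, hR⟩ := ht.supp
        exact ⟨R, hR.mono fun x hx h1 h2 c => hx h1 h2 c.castSucc⟩
      · filter_upwards [ht.bdry] with y hy
        rw [Fin.sum_univ_castSucc] at hy
        simpa only [pad_castSucc, pad_last, mul_zero, add_zero] using hy
    simp only [pair_pad]
    exact h.weak _ _ _ ht'

theorem isConformal_pad {m d : ℕ} {A : E (m + 1) → Fin d → E (m + 1)}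
    (h : IsConformal m (d + 1) (fun x => pad (A x))) : IsConformal m d A := by
  refine h.mono fun x hx hxh i j => ?_
  have h1 := hx hxh i j
  rw [Fin.sum_univ_castSucc] at h1
  simpa [pad_castSucc, pad_last, hs_pad] using h1

theorem enlarge {m d : ℕ} (h : ∃ (ω : E (m + 1) → Fin d → ℝ) (A : E (m + 1) → Fin d → E (m + 1))
      (τ : E m → Fin d → ℝ), IsBubble m d ω A τ ∧ ¬ IsConformal m d A) (k : ℕ) :
    ∃ (ω : E (m + 1) → Fin (d + k) → ℝ) (A : E (m + 1) → Fin (d + k) → E (m + 1))
      (τ : E m → Fin (d + k) → ℝ), IsBubble m (d + k) ω A τ ∧ ¬ IsConformal m (d + k) A := by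
  induction k with
  | zero => exact h
  | succ k ih =>
    obtain ⟨ω, A, τ, h1, h2⟩ := ih
    exact ⟨_, _, _, isBubble_pad h1, fun hc => h2 (isConformal_pad hc)⟩

theorem enlarge' {m d : ℕ} (h : ∃ (ω : E (m + 1) → Fin d → ℝ) (A : E (m + 1) → Fin d → E (m + 1))
      (τ : E m → Fin d → ℝ), IsBubble m d ω A τ ∧ ¬ IsConformal m d A) {d' : ℕ} (hd : d ≤ d') :
    ∃ (ω : E (m + 1) → Fin d' → ℝ) (A : E (m + 1) → Fin d' → E (m + 1))
      (τ : E m → Fin d' → ℝ), IsBubble m d' ω A τ ∧ ¬ IsConformal m d' A := by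
  obtain ⟨k, rfl⟩ := Nat.exists_eq_add_of_le hd
  exact enlarge h k

/-! ## The eigenmap with `n²` components (the construction of the library, with its dimension) -/

section Eigenmap

open Finset EigAux

theorem eigN (n : ℕ) (hn : 4 ≤ n) :
    ∃ S : Fin (n * n) → Fin n → Fin n → ℝ, Eig n (n * n) S := by
  have hnr : (4 : ℝ) ≤ n := by exact_mod_cast hn
  have hn0 : (n : ℝ) ≠ 0 := by positivity
  have hn1 : (n : ℝ) - 1 ≠ 0 := by linarith
  set i0 : Fin n := ⟨0, by omega⟩ with e0
  set i1 : Fin n := ⟨1, by omega⟩ with e1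
  set i2 : Fin n := ⟨2, by omega⟩ with e2
  set i3 : Fin n := ⟨3, by omega⟩ with e3
  have h01 : i0 ≠ i1 := by simp [e0, e1, Fin.ext_iff]
  have h02 : i0 ≠ i2 := by simp [e0, e2, Fin.ext_iff]
  have h03 : i0 ≠ i3 := by simp [e0, e3, Fin.ext_iff]
  have h12 : i1 ≠ i2 := by simp [e1, e2, Fin.ext_iff]
  have h13 : i1 ≠ i3 := by simp [e1, e3, Fin.ext_iff]
  have h23 : i2 ≠ i3 := by simp [e2, e3, Fin.ext_iff]
  clear_value i0 i1 i2 i3
  set α : ℝ := Real.sqrt ((n : ℝ) / (n - 1)) with hα
  have hα2 : α ^ 2 = (n : ℝ) / (n - 1) := by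
    rw [hα]
    exact Real.sq_sqrt (div_nonneg (by linarith) (by linarith))
  set e : Fin (n * n) ≃ Fin n × Fin n := finProdFinEquiv.symm with he
  have hsum : ∀ g : Fin n × Fin n → ℝ, ∑ c, g (e c) = ∑ c, g c := fun g => e.sum_comp g
  have hB : ∀ (v x : Fin n → ℝ) (c : Fin n × Fin n),
      Bf (fun a b => α * SS i0 i1 i2 i3 c a b) v x = α / 2 * val i0 i1 i2 i3 v x c := by
    intro v x c
    rw [Bf_smul, ← Bf_SS]
    ring
  refine ⟨fun c a b => α * SS i0 i1 i2 i3 (e c) a b, ?_⟩
  · refine ⟨?_, ?_, ?_, ?_, ?_⟩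
    · intro c i j
      rw [SS_symm]
    · intro c
      rw [← Finset.mul_sum, SS_tr h01 h02 h13 h23 hn0, mul_zero]
    · intro x
      have h1 : ∀ c, qf (fun a b => α * SS i0 i1 i2 i3 (e c) a b) x ^ 2 =
          (fun c => α ^ 2 / 4 * val i0 i1 i2 i3 x x c ^ 2) (e c) := by
        intro c
        rw [qf_eq, hB]
        ring
      refine (Finset.sum_congr rfl fun c _ => h1 c).trans
        ((hsum (fun c => α ^ 2 / 4 * val i0 i1 i2 i3 x x c ^ 2)).trans ?_)
      rw [← Finset.mul_sum, master h01 h02 h03 h12 h13 h23 hn0, hα2, show ‖x‖ ^ 4 = (‖x‖ ^ 2) ^ 2 by ring, nsq]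
      have h2 : ∑ a, x a * x a = ∑ a, x a ^ 2 := Finset.sum_congr rfl fun a _ => by ring
      rw [h2]
      unfold p
      field_simp
      ring
    · intro x
      have h1 : ∀ c, ‖mv (fun a b => α * SS i0 i1 i2 i3 (e c) a b) x‖ ^ 2 =
          (fun c => ∑ a, α ^ 2 / 4 * val i0 i1 i2 i3 (Pi.single a 1) x c ^ 2) (e c) := by
        intro c
        rw [nsq]
        refine Finset.sum_congr rfl fun a _ => ?_
        rw [mv_eq, hB]
        ring
      refine (Finset.sum_congr rfl fun c _ => h1 c).trans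
        ((hsum (fun c => ∑ a, α ^ 2 / 4 * val i0 i1 i2 i3 (Pi.single a 1) x c ^ 2)).trans ?_)
      rw [Finset.sum_comm]
      have h3 : ∀ a : Fin n, ∑ c, α ^ 2 / 4 * val i0 i1 i2 i3 (Pi.single a 1) x c ^ 2 =
          α ^ 2 / 4 * (2 * (∑ b, x b ^ 2) + (2 - 4 / (n : ℝ)) * x a ^ 2) := by
        intro a
        rw [← Finset.mul_sum, master h01 h02 h03 h12 h13 h23 hn0, single_p h02 h03 h12 h13,
          single_p h01 h03 h12.symm h23]
        have h4 : ∑ b, (Pi.single a (1 : ℝ) : Fin n → ℝ) b ^ 2 = 1 := by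
          simp [Pi.single_apply]
        have h5 : ∑ b, (Pi.single a (1 : ℝ) : Fin n → ℝ) b * x b = x a := by
          simp [Pi.single_apply]
        rw [h4, h5]
        ring
      have h6 : ∑ a, (2 * (∑ b, x b ^ 2) + (2 - 4 / (n : ℝ)) * x a ^ 2) =
          n * (2 * ∑ b, x b ^ 2) + (2 - 4 / (n : ℝ)) * ∑ b, x b ^ 2 := by
        rw [Finset.sum_add_distrib, Finset.sum_const, Finset.card_univ, Fintype.card_fin,
          nsmul_eq_mul, Finset.mul_sum (a := 2 - 4 / (n : ℝ))]
      rw [Finset.sum_congr rfl fun a _ => h3 a, ← Finset.mul_sum, h6, nsq, hα2]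
      field_simp
      ring
    · set xf : Fin n → ℝ := fun a => 1 / 2 * ((if a = i0 then 1 else 0) +
        (if a = i1 then 1 else 0) + (if a = i2 then 1 else 0) + (if a = i3 then 1 else 0)) with hxf
      set vf : Fin n → ℝ := fun a => 1 / 2 * ((if a = i0 then 1 else 0) -
        (if a = i1 then 1 else 0) + (if a = i2 then 1 else 0) - (if a = i3 then 1 else 0)) with hvf
      have x0 : xf i0 = 1 / 2 := by simp [hxf, h01, h02, h03]
      have x1 : xf i1 = 1 / 2 := by simp [hxf, h01.symm, h12, h13]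
      have x2 : xf i2 = 1 / 2 := by simp [hxf, h02.symm, h12.symm, h23]
      have x3 : xf i3 = 1 / 2 := by simp [hxf, h03.symm, h13.symm, h23.symm]
      have v0 : vf i0 = 1 / 2 := by simp [hvf, h01, h02, h03]
      have v1 : vf i1 = -(1 / 2) := by simp [hvf, h01.symm, h12, h13]
      have v2 : vf i2 = 1 / 2 := by simp [hvf, h02.symm, h12.symm, h23]
      have v3 : vf i3 = -(1 / 2) := by simp [hvf, h03.symm, h13.symm, h23.symm]
      have hgen : ∀ g : Fin n → ℝ, ∑ a, xf a * g a = 1 / 2 * (g i0 + g i1 + g i2 + g i3) := by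
        intro g
        simp only [hxf, mul_assoc, add_mul, ite_mul, one_mul, zero_mul, ← Finset.mul_sum,
          Finset.sum_add_distrib, Finset.sum_ite_eq', Finset.mem_univ, if_true]
      have hgen' : ∀ g : Fin n → ℝ, ∑ a, vf a * g a = 1 / 2 * (g i0 - g i1 + g i2 - g i3) := by
        intro g
        simp only [hvf, mul_assoc, add_mul, sub_mul, ite_mul, one_mul, zero_mul, ← Finset.mul_sum,
          Finset.sum_add_distrib, Finset.sum_sub_distrib, Finset.sum_ite_eq', Finset.mem_univ,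
          if_true]
      have hxx : ∑ a, xf a ^ 2 = 1 := by
        rw [Finset.sum_congr rfl fun a _ => sq (xf a), hgen, x0, x1, x2, x3]
        norm_num
      have hvv : ∑ a, vf a ^ 2 = 1 := by
        rw [Finset.sum_congr rfl fun a _ => sq (vf a), hgen', v0, v1, v2, v3]
        norm_num
      have hvx : ∑ a, vf a * xf a = 0 := by
        rw [hgen', x0, x1, x2, x3]
        norm_num
      refine ⟨WithLp.toLp 2 xf, WithLp.toLp 2 vf, ?_, ?_, ?_, ?_⟩
      · have h1 := nsq (WithLp.toLp 2 xf : E n)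
        have h2 : ‖(WithLp.toLp 2 xf : E n)‖ ^ 2 = 1 := h1.trans hxx
        have h3 := norm_nonneg (WithLp.toLp 2 xf : E n)
        nlinarith
      · have h1 := nsq (WithLp.toLp 2 vf : E n)
        have h2 : ‖(WithLp.toLp 2 vf : E n)‖ ^ 2 = 1 := h1.trans hvv
        have h3 := norm_nonneg (WithLp.toLp 2 vf : E n)
        nlinarith
      · rw [PiLp.inner_apply]
        simp only [RCLike.inner_apply, conj_trivial]
        exact hvx
      · have h1 : ∀ c, (2 * inner ℝ (WithLp.toLp 2 vf : E n)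
            (mv (fun a b => α * SS i0 i1 i2 i3 (e c) a b) (WithLp.toLp 2 xf))) ^ 2 =
            (fun c => α ^ 2 * val i0 i1 i2 i3 vf xf c ^ 2) (e c) := by
          intro c
          rw [EigAux.inner_mv, hB]
          ring
        intro h2
        have h5 := ((Finset.sum_congr rfl fun c _ => h1 c).trans
          (hsum (fun c => α ^ 2 * val i0 i1 i2 i3 vf xf c ^ 2))).symm.trans h2
        rw [← Finset.mul_sum, master h01 h02 h03 h12 h13 h23 hn0, hvv, hxx, hvx, hα2] at h5
        unfold p at h5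
        rw [x0, x1, x2, x3, v0, v1, v2, v3] at h5
        have h3 : 3 * ((n : ℝ) / (n - 1)) = 2 * ((n : ℝ) / (n - 1)) := by
          rw [mul_div_assoc] at h5
          linarith
        have h4 : (n : ℝ) / (n - 1) ≠ 0 := div_ne_zero hn0 hn1
        apply h4
        linarith

end Eigenmap

/-- the construction of the library for `n = m + 1 ≥ 4`, with target dimension `n²` -/
theorem from_four_sq (m : ℕ) (hm : 3 ≤ m) :
    ∃ (ω : E (m + 1) → Fin ((m + 1) * (m + 1)) → ℝ)
      (A : E (m + 1) → Fin ((m + 1) * (m + 1)) → E (m + 1))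
      (τ : E m → Fin ((m + 1) * (m + 1)) → ℝ),
      IsBubble m ((m + 1) * (m + 1)) ω A τ ∧ ¬ IsConformal m ((m + 1) * (m + 1)) A := by
  obtain ⟨S, hE⟩ := eigN (m + 1) (by omega)
  have hm3 : (3 : ℝ) ≤ m := by exact_mod_cast hm
  have hm0 : (0 : ℝ) < m := by linarith
  set a : ℝ := Real.sqrt (2 * (m + 1) / m) with hadef
  have ha : a ^ 2 * m = 2 * (m + 1) := by
    rw [hadef, Real.sq_sqrt (by positivity)]
    field_simp
  have ha0 : 0 ≤ a := Real.sqrt_nonneg _
  have ha14 : (7 / 5 : ℝ) < a := by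
    by_contra h
    rw [not_lt] at h
    have h1 : a ^ 2 ≤ (7 / 5) ^ 2 := pow_le_pow_left₀ ha0 h 2
    nlinarith
  refine ⟨om S a, dom S a, fun y c => om S a (bd y) c, ?_, ?_⟩
  · exact bubble green hE grad kcont kdiff kdiv chain piC1 piola bdry (by omega) (by linarith) ha
      (by nlinarith)
  · exact not_conformal hE kcont bdry (by omega) (by linarith) ha

/-- **Theorem.** There are non-conformal bubbles from the half-space of `ℝ³` to `ℝᵈ` for every
`d ≥ 3`, and from the half-space of `ℝⁿ`, `n = m + 1 ≥ 4`, to `ℝᵈ` for every `d ≥ n²`. -/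
theorem result :
    (∀ d : ℕ, 3 ≤ d →
      ∃ (ω : E (2 + 1) → Fin d → ℝ) (A : E (2 + 1) → Fin d → E (2 + 1)) (τ : E 2 → Fin d → ℝ),
        IsBubble 2 d ω A τ ∧ ¬ IsConformal 2 d A) ∧
    (∀ m : ℕ, 3 ≤ m → ∀ d : ℕ, (m + 1) ^ 2 ≤ d →
      ∃ (ω : E (m + 1) → Fin d → ℝ) (A : E (m + 1) → Fin d → E (m + 1)) (τ : E m → Fin d → ℝ),
        IsBubble m d ω A τ ∧ ¬ IsConformal m d A) := by
  constructor
  · intro d hd
    exact enlarge' (Pool.Agent.T6.H20.BV.main3
      (Pool.Agent.T6.H20.BV.t3d green Pool.Agent.T6.H20.BV.cov)) hd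
  · intro m hm d hd
    exact enlarge' (from_four_sq m hm) (by rw [← sq]; exact hd)

end Pool.Agent.Results.MP_138ac9_an.AllLargeTargets
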